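import Pool.Agent.Q46.MH.Poly

/-!
# Record prime gaps around `x` and around the least residue of `f(x)` modulo `p`

Let `d ≥ 2` and `0 < ε ≤ 1`.  There is `κ > 0` such that for all large primes `p`, all polynomials `f` of degree `d` with
integer coefficients and leading coefficient prime to `p`, and all intervals `I`, `J` in `[0, p)` with
`|I| |J| ≥ p^(3/2 + ε)`, at least `|I| |J| p^(-1 - ε)` of the `x ∈ I` have these properties: the least residue `y` of `f(x)`
modulo `p` lies in `J`, and no prime lies at distance at most `κ log p (log₂ p)² log₄ p / (log₃ p)²` of `x`, and none of `y`.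
The constants do not depend on the coefficients of `f`.

Design and proof: helper46 (modules `Pool.Agent.Q46.MH.*`: the completion of sums over boxes), on the covering criterion for
vectors of integers of the starting repository (`Pool.Agent.Y961.JR.critJ`) and its Weil bound for additive character sums
of polynomials (`Pool.Agent.Y951.WP.weil_le`).
-/

set_option autoImplicit false

open Polynomial

namespace Pool.Agent.Results.MP_c853c5_nt.PolynomialResidues

/-- the record scale `log x (log₂ x)² log₄ x / (log₃ x)²` -/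
noncomputable def scale (x : ℝ) : ℝ :=
  Real.log x * (Real.log (Real.log x)) ^ 2 * Real.log (Real.log (Real.log (Real.log x))) /
    (Real.log (Real.log (Real.log x))) ^ 2

/-- no prime at distance at most `K` of `n` -/
def Isolated (K : ℝ) (n : ℕ) : Prop := ∀ q : ℕ, q.Prime → K < |(q : ℝ) - n|

/-- **Isolated values of polynomials modulo primes.** For all large primes `p`, all integer polynomials `f` of degree `d`
with leading coefficient prime to `p` and all intervals `[A, A + M)` and `[B, B + N)` in `[0, p)` with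
`M N ≥ p^(3/2 + ε)`, at least `M N p^(-1 - ε)` of the `x` in `[A, A + M)` have `y = f(x) mod p` in `[B, B + N)`, and both `x`
and `y` isolated on the record scale. -/
theorem result : ∀ d : ℕ, 2 ≤ d → ∀ ε : ℝ, 0 < ε → ε ≤ 1 → ∃ κ : ℝ, 0 < κ ∧ ∃ p₀ : ℕ, ∀ p : ℕ, p₀ ≤ p → p.Prime →
    ∀ f : ℤ[X], f.natDegree = d → ¬ (p : ℤ) ∣ f.leadingCoeff → ∀ A M B N : ℕ, A + M ≤ p → B + N ≤ p →
      (p : ℝ) ^ (3 / 2 + ε) ≤ (M : ℝ) * N →
      ∃ G : Finset (ℕ × ℕ), (M : ℝ) * N / p * (p : ℝ) ^ (-ε) ≤ G.card ∧
        ∀ z ∈ G, (A ≤ z.1 ∧ z.1 < A + M) ∧ (B ≤ z.2 ∧ z.2 < B + N) ∧ (p : ℤ) ∣ f.eval (z.1 : ℤ) - z.2 ∧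
          Isolated (κ * scale p) z.1 ∧ Isolated (κ * scale p) z.2 :=
  fun d hd ε h0 h1 => Pool.Agent.Q46.MH.polynomial d hd ε h0 h1

end Pool.Agent.Results.MP_c853c5_nt.PolynomialResidues
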