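import Pool.Agent.Q46.MH.Pseudo

/-!
# Every sign pattern of every pseudorandom sequence occurs in record prime gaps

Let `a_0, ..., a_(N-1)` be ANY sequence of signs whose correlations (in the sense of Mauduit and Sárközy) of order at
most `2k` are at most `N^(1-δ)`.  Such sequences are known in great number: Legendre symbols of polynomials, signs of
residues of inverses, discrete logarithms or elliptic curve points, ..., and almost all sequences.  We prove that for all
distinct shifts `d_1, ..., d_k ≤ N/2` all the `2^k` sign patterns occur at integers `n` which are isolated from the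
primes on the record scale: at least `N^(1-ε) / 2^k` of the `n < N/2` with
`(a(n + d_1), ..., a(n + d_k)) = (s_1, ..., s_k)` have no prime at distance at most
`κ log N (log₂ N)² log₄ N / (log₃ N)²`.  The length `k` of the patterns may grow like `c log N`.

Design and proof: helper46 (module `Pool.Agent.Q46.MH.Pseudo`), on the covering criterion of the starting repository
(`Pool.Agent.Y961.JR.critJ`).
-/

set_option autoImplicit false

open Finset

namespace Pool.Agent.Results.MP_c853c5_nt.PseudorandomSequences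

/-- the record scale `log x (log₂ x)² log₄ x / (log₃ x)²` -/
noncomputable def scale (x : ℝ) : ℝ :=
  Real.log x * (Real.log (Real.log x)) ^ 2 * Real.log (Real.log (Real.log (Real.log x))) /
    (Real.log (Real.log (Real.log x))) ^ 2

/-- no prime at distance at most `K` of `n` -/
def Isolated (K : ℝ) (n : ℕ) : Prop := ∀ q : ℕ, q.Prime → K < |(q : ℝ) - n|

/-- all the correlations of order at most `m` of the signs `a 0, ..., a (N - 1)` are at most `C` in absolute value:
`|∑_{n < M} ∏_{d ∈ D} a (n + d)| ≤ C` whenever `1 ≤ |D| ≤ m` and `M + d ≤ N` for all `d ∈ D` -/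
def CorrelationsLe (N m : ℕ) (a : ℕ → ℤ) (C : ℝ) : Prop :=
  ∀ D : Finset ℕ, D.Nonempty → D.card ≤ m → ∀ M : ℕ, (∀ d ∈ D, M + d ≤ N) →
    |((∑ n ∈ range M, ∏ d ∈ D, a (n + d) : ℤ) : ℝ)| ≤ C

open Classical in
/-- Let `0 < δ ≤ 1` and `ε > 0`. There are `κ > 0` and `N₀` such that for all `N ≥ N₀`, all `k` with `2^k ≤ N^(δ/8)`,
all signs `a 0, ..., a (N - 1)` whose correlations of order at most `2k` are at most `N^(1-δ)`, all distinct shifts
`d_1, ..., d_k ≤ N/2` and all signs `s_1, ..., s_k`: at least `N^(1-ε) / 2^k` of the natural numbers `n < ⌊N/2⌋` with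
`a (n + d_i) = s_i` for all `i` have no prime at distance at most `κ scale N`. -/
theorem result : ∀ δ : ℝ, 0 < δ → δ ≤ 1 → ∀ ε : ℝ, 0 < ε → ∃ κ : ℝ, 0 < κ ∧ ∃ N₀ : ℕ, ∀ N : ℕ, N₀ ≤ N →
    ∀ k : ℕ, (2 : ℝ) ^ k ≤ (N : ℝ) ^ (δ / 8) → ∀ a : ℕ → ℤ, (∀ n < N, a n = 1 ∨ a n = -1) →
      CorrelationsLe N (2 * k) a ((N : ℝ) ^ (1 - δ)) →
      ∀ d : Fin k → ℕ, Function.Injective d → (∀ i, 2 * d i ≤ N) → ∀ s : Fin k → ℤ, (∀ i, s i = 1 ∨ s i = -1) →
        (N : ℝ) ^ (1 - ε) / 2 ^ k ≤
          (((range (N / 2)).filter (fun n => (∀ i, a (n + d i) = s i) ∧ Isolated (κ * scale N) n)).card : ℝ) := by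
  intro δ hδ hδ1 ε hε
  obtain ⟨κ, hκ, N₀, h⟩ := Pool.Agent.Q46.MH.pseudo δ hδ hδ1 ε hε
  refine ⟨κ, hκ, N₀, ?_⟩
  intro N hN k hk a ha hC d hd hdN s hs
  refine (h N hN k hk a ha hC d hd hdN s hs).trans (le_of_eq ?_)
  unfold Pool.Agent.Q46.MH.pat
  rw [filter_filter]
  congr 2

end Pool.Agent.Results.MP_c853c5_nt.PseudorandomSequences
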