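import Pool.Agent.Y829.RS5

/-!
# Sieve weights see the expected number of primes in all windows of length `log X (log log X)^3`

A nonnegative sieve weight `w(n) = ∑_{d ≤ Q} c_d(n mod d)` of level `Q` up to `X^(1/2)` divided by a power of `log X`, tested
on the interval `(X, 2X]`, finds the expected number `U / log X` of primes in the window `(n, n + U]`, for EVERY length
`U ≥ log X (log log X)^3`.  So such a weight cannot be carried by the `n` whose window is free of primes: sieve weights
of this level, by themselves, cannot detect prime-free intervals longer than `log X (log log X)^3`, while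
`log X log log X log log log log X / log log log X` is the length of the longest prime-free intervals known.

Design and proof: helper829 (module `Pool.Agent.Y829.RS5` of the starting repository).
-/

set_option autoImplicit false

open Finset

namespace Pool.Agent.Results.MP_c853c5_nt.SieveWeightWindows

/-- `w(n) = ∑_{d ≤ Q} c_d(n mod d)` -/
noncomputable def weight (Q : ℕ) (c : ℕ → ℕ → ℝ) (n : ℕ) : ℝ := ∑ d ∈ Icc 1 Q, c d (n % d)

/-- `s(d) = ∑_{a mod d} |c_d(a)|` -/
noncomputable def size (c : ℕ → ℕ → ℝ) (d : ℕ) : ℝ := ∑ a ∈ range d, |c d a|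

/-- the mass of the weight on `(X, 2X]` -/
noncomputable def mass (X Q : ℕ) (c : ℕ → ℕ → ℝ) : ℝ := ∑ n ∈ Ioc X (2 * X), weight Q c n

/-- the number of primes in the window `(n, n + U]` -/
def primesIn (U n : ℕ) : ℕ := ((Ioc n (n + U)).filter Nat.Prime).card

/-- the hypotheses on the weight: level `Q ≤ (X / (log X)^B)^(1/2)`, nonnegative, size and mass controlled up to powers of
`log X` -/
def Good (K B X Q : ℕ) (c : ℕ → ℕ → ℝ) : Prop :=
  1 ≤ Q ∧ (Q : ℝ) ^ 2 * Real.log X ^ B ≤ X ∧ (∀ n, 0 ≤ weight Q c n) ∧
    ∑ d ∈ Icc 1 Q, size c d ^ 2 / d ≤ Real.log X ^ K ∧ X / Real.log X ^ K ≤ mass X Q c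

/-- Let `K` be a natural number and `0 < ε < 1`. There are `B` and `X₀` such that for all `X ≥ X₀`, every `Good` weight `w`
and every `U` with `log X (log log X)^3 ≤ U ≤ X` the mean with respect to `w` of the number of primes in the window
`(n, n + U]`, `X < n ≤ 2X`, is `U / log X` up to a relative error at most `ε`. In particular there are `n` in `(X, 2X]` with
`w(n) > 0` whose window contains at least `(1 - ε) U / log X` primes, and others with `w(n) > 0` whose window contains at most
`(1 + ε) U / log X` primes. -/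
theorem result : ∀ (K : ℕ) (ε : ℝ), 0 < ε → ε < 1 → ∃ B X₀ : ℕ, ∀ X : ℕ, X₀ ≤ X → ∀ (Q : ℕ) (c : ℕ → ℕ → ℝ),
    Good K B X Q c → ∀ U : ℕ, Real.log X * Real.log (Real.log X) ^ 3 ≤ U → U ≤ X →
      |∑ n ∈ Ioc X (2 * X), weight Q c n * primesIn U n - U / Real.log X * mass X Q c| ≤
        ε * (U / Real.log X * mass X Q c) ∧
      (∃ n ∈ Ioc X (2 * X), 0 < weight Q c n ∧ (1 - ε) * (U / Real.log X) ≤ primesIn U n) ∧
      (∃ n ∈ Ioc X (2 * X), 0 < weight Q c n ∧ primesIn U n ≤ (1 + ε) * (U / Real.log X)) := by
  classical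
  intro K ε hε hε1
  obtain ⟨b, hb⟩ := exists_pow_lt_of_lt_one hε (show (1 / 2 : ℝ) < 1 by norm_num)
  obtain ⟨B, X₀, h⟩ := Pool.Agent.Y829.RS.main_all K b
  refine ⟨B, max X₀ 3, ?_⟩
  intro X hX Q c hc U hU hUX
  obtain ⟨g1, g2, g3, g4, g5⟩ := hc
  have h1 := h X U Q ((le_max_left _ _).trans hX) hU hUX g1 g2 c g3 g4 g5
  have hX3 : 3 ≤ X := (le_max_right _ _).trans hX
  have h0 : 0 ≤ mass X Q c := sum_nonneg fun n _ => g3 n
  have hlog : 0 < Real.log X := Real.log_pos (by exact_mod_cast (by omega : 1 < X))
  have hmain : |∑ n ∈ Ioc X (2 * X), weight Q c n * primesIn U n - U / Real.log X * mass X Q c| ≤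
        ε * (U / Real.log X * mass X Q c) := by
    refine le_trans h1 ?_
    apply mul_le_mul_of_nonneg_right hb.le
    show 0 ≤ U / Real.log X * mass X Q c
    positivity
  have hXpos : (0 : ℝ) < X := by exact_mod_cast (by omega : 0 < X)
  have hmpos : 0 < mass X Q c := lt_of_lt_of_le (by positivity) g5
  -- a point of positive weight
  refine ⟨hmain, ?_, ?_⟩
  · by_contra hcon
    push Not at hcon
    have h2 : ∑ n ∈ Ioc X (2 * X), weight Q c n * (primesIn U n : ℝ) <
        ∑ n ∈ Ioc X (2 * X), weight Q c n * ((1 - ε) * (U / Real.log X)) := by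
      apply sum_lt_sum
      · intro n hn
        rcases (g3 n).eq_or_lt with h3 | h3
        · have h4 : weight Q c n = 0 := h3.symm
          rw [h4, zero_mul, zero_mul]
        · exact (mul_lt_mul_of_pos_left (hcon n hn h3) h3).le
      · have h5 : ∃ n ∈ Ioc X (2 * X), 0 < weight Q c n := by
          by_contra h6
          push Not at h6
          exact absurd (sum_nonpos h6) (not_le.2 hmpos)
        obtain ⟨n, hn, h3⟩ := h5
        exact ⟨n, hn, mul_lt_mul_of_pos_left (hcon n hn h3) h3⟩
    rw [← sum_mul] at h2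
    have h6 := (abs_le.1 hmain).1
    have h7 : (∑ n ∈ Ioc X (2 * X), weight Q c n) * ((1 - ε) * (U / Real.log X)) =
        U / Real.log X * mass X Q c - ε * (U / Real.log X * mass X Q c) := by
      show mass X Q c * ((1 - ε) * (U / Real.log X)) = _
      ring
    rw [h7] at h2
    linarith
  · by_contra hcon
    push Not at hcon
    have h2 : ∑ n ∈ Ioc X (2 * X), weight Q c n * ((1 + ε) * (U / Real.log X)) <
        ∑ n ∈ Ioc X (2 * X), weight Q c n * (primesIn U n : ℝ) := by
      apply sum_lt_sum
      · intro n hn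
        rcases (g3 n).eq_or_lt with h3 | h3
        · have h4 : weight Q c n = 0 := h3.symm
          rw [h4, zero_mul, zero_mul]
        · exact (mul_lt_mul_of_pos_left (hcon n hn h3) h3).le
      · have h5 : ∃ n ∈ Ioc X (2 * X), 0 < weight Q c n := by
          by_contra h6
          push Not at h6
          exact absurd (sum_nonpos h6) (not_le.2 hmpos)
        obtain ⟨n, hn, h3⟩ := h5
        exact ⟨n, hn, mul_lt_mul_of_pos_left (hcon n hn h3) h3⟩
    rw [← sum_mul] at h2
    have h6 := (abs_le.1 hmain).2
    have h7 : (∑ n ∈ Ioc X (2 * X), weight Q c n) * ((1 + ε) * (U / Real.log X)) =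
        U / Real.log X * mass X Q c + ε * (U / Real.log X * mass X Q c) := by
      show mass X Q c * ((1 + ε) * (U / Real.log X)) = _
      ring
    rw [h7] at h2
    linarith

end Pool.Agent.Results.MP_c853c5_nt.SieveWeightWindows
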