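import Pool.Agent.Q46.MH.Sub

/-!
# Record prime gaps around the elements of small multiplicative subgroups modulo `p` and their exponents

Let `g` have order `T` modulo the prime `p`.  Gauss sums show that the coset `c g^n`, `0 ≤ n < T`, is well distributed
modulo `p` for `T ≥ p^(1/2 + ε)` (see the hand-in `MP_028722_nt/ModularExponentials`).  Here `T` may be as small as
`p^(3/8 + ε)`: for all intervals `I` in `[0, T)` and `J` in `[0, p)` with `|I| |J| ≥ p^(9/8 + ε) T^(2/3)` at least
`|I| |J| p^(-1 - ε)` of the `n ∈ I` are such that the least residue `y` of `c g^n` lies in `J` and no prime lies at distance at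
most `κ log p (log₂ p)² log₄ p / (log₃ p)²` of `n`, and none of `y`.  For `T ≤ p^(9/16)` the condition is weaker than the
condition `|I| |J| ≥ p^(3/2 + ε)` of that hand-in; for `I = [0, T)`, `J = [0, p)` it is `T ≥ p^(3/8 + 3 ε)`.

Design and proof: helper46 (modules `Pool.Agent.Q46.MH.*`: the completion of sums over boxes, the twisted sums over the
subgroup by Hölder's inequality from the additive energy), on the covering criterion for vectors of integers of the
starting repository (`Pool.Agent.Y961.JR.critJ`) and its bound for the additive energy of subgroups after Heath-Brown and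
Konyagin (`Pool.Agent.Y943.Fu.energy_le`, `Pool.Agent.H435R3.HBK`).
-/

set_option autoImplicit false

namespace Pool.Agent.Results.MP_c853c5_nt.SmallSubgroups

/-- the record scale `log x (log₂ x)² log₄ x / (log₃ x)²` -/
noncomputable def scale (x : ℝ) : ℝ :=
  Real.log x * (Real.log (Real.log x)) ^ 2 * Real.log (Real.log (Real.log (Real.log x))) /
    (Real.log (Real.log (Real.log x))) ^ 2

/-- no prime at distance at most `K` of `n` -/
def Isolated (K : ℝ) (n : ℕ) : Prop := ∀ q : ℕ, q.Prime → K < |(q : ℝ) - n|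

/-- **Isolated elements of small subgroups.** For all large primes `p`, all `g` and `c` prime to `p`, with `T` the order of
`g` modulo `p`, and all intervals `[A, A + M)` in `[0, T)` and `[B, B + N)` in `[0, p)` with
`M N ≥ p^(9/8 + ε) T^(2/3)`, at least `M N p^(-1 - ε)` of the `n` in `[A, A + M)` have `y = c g^n mod p` in `[B, B + N)`, and
both `n` and `y` isolated on the record scale. -/
theorem result : ∀ ε : ℝ, 0 < ε → ε ≤ 1 → ∃ κ : ℝ, 0 < κ ∧ ∃ p₀ : ℕ, ∀ p : ℕ, p₀ ≤ p → p.Prime →
    ∀ g c : ℤ, ¬ (p : ℤ) ∣ g → ¬ (p : ℤ) ∣ c → ∀ A M B N : ℕ, A + M ≤ orderOf (g : ZMod p) → B + N ≤ p →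
      (p : ℝ) ^ (9 / 8 + ε) * (orderOf (g : ZMod p) : ℝ) ^ (2 / 3 : ℝ) ≤ (M : ℝ) * N →
      ∃ G : Finset (ℕ × ℕ), (M : ℝ) * N / p * (p : ℝ) ^ (-ε) ≤ G.card ∧
        ∀ z ∈ G, (A ≤ z.1 ∧ z.1 < A + M) ∧ (B ≤ z.2 ∧ z.2 < B + N) ∧ (p : ℤ) ∣ z.2 - c * g ^ z.1 ∧
          Isolated (κ * scale p) z.1 ∧ Isolated (κ * scale p) z.2 :=
  fun ε h0 h1 => Pool.Agent.Q46.MH.small_subgroups ε h0 h1

end Pool.Agent.Results.MP_c853c5_nt.SmallSubgroups
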